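import Mathlib

/-!
# MP_4cfb12_co, Q1: components of the ortho-derivative of a quadratic APN function

Let `F` be a quadratic APN function on `F₂ⁿ`, let `B (a, x) = F (x + a) + F (x) + F (a) + F (0)` be
its polar form and `π` its ortho-derivative. Fix `b ≠ 0`.

* For `a ≠ 0`, the image of `B (a, ·)` is the hyperplane orthogonal to `π a`, and its kernel is
  `{0, a}`. So `b · π a = 0` if and only if `B (a, x) = b` for some `x`, and then the solutions are
  `x` and `x + a`. Hence the set `{a ≠ 0 : b · π a = 0}` is the disjoint union of `N` triples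
  `{a, x, x + a}` with `B (a, x) = b` (`sum_lines`).
* If `b · π` had degree `d < n - 2`, the sum over `F₂ⁿ` of the product of `1 + b · π` (the indicator
  of `{y : b · π y = 0}`) with any function of degree at most `2` would vanish. Applied to the
  constant `1` this says that `1 + 3 N` is even, so `N` is odd; applied to `v · F` with `v · b = 1`
  it says that `v · F(0) + N (1 + v · F(0)) = 0`, that is `1 = 0` (`degree_ge`).

So every nonzero component of `π` has degree at least `n - 2`; for `n ≥ 4` it is not affine. For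
`n = 2, 3` the component `b · π` with `b = B (a, x)` is linear (`NL_zero_of_plane`).
-/

set_option autoImplicit false
open Finset

namespace Pool.Agent.Results.MP_4cfb12_co.OrthoDerivativeDegree

/-- The vector space `F₂ⁿ`. -/
abbrev V (n : ℕ) := Fin n → ZMod 2

variable {n : ℕ}

/-- The derivative `D_a F (x) = F (x + a) + F (x)`. -/
def D (F : V n → V n) (a x : V n) : V n := F (x + a) + F x

/-- `F` is almost perfect nonlinear: for `a ≠ 0` and every `b`, the equation `D_a F (x) = b` has at
most two solutions. -/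
def APN (F : V n → V n) : Prop :=
  ∀ a : V n, a ≠ 0 → ∀ b : V n, (univ.filter fun x => D F a x = b).card ≤ 2

/-- The Boolean function `f` has algebraic degree at most `d`: it is given by a polynomial of total
degree at most `d`. -/
def DegLE (d : ℕ) (f : V n → ZMod 2) : Prop :=
  ∃ p : MvPolynomial (Fin n) (ZMod 2), p.totalDegree ≤ d ∧ ∀ x, MvPolynomial.eval x p = f x

/-- `F` is quadratic: its algebraic degree equals `2`. -/
def Quadratic (F : V n → V n) : Prop :=
  (∀ i, DegLE 2 fun x => F x i) ∧ ¬ ∀ i, DegLE 1 fun x => F x i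

/-- `π` is the ortho-derivative of `F`: `π 0 = 0` and, for `a ≠ 0`, `π a` is a nonzero vector
orthogonal to all the vectors `D_a F (x) + D_a F (0)`. -/
def IsOrtho (F π : V n → V n) : Prop :=
  π 0 = 0 ∧ ∀ a, a ≠ 0 → π a ≠ 0 ∧ ∀ x, π a ⬝ᵥ (D F a x + D F a 0) = 0

/-- The nonlinearity of `G`: the smallest distance between a nonzero component `b · G` and an affine
function `c · x + e`. -/
noncomputable def NL (G : V n → V n) : ℕ :=
  sInf {k | ∃ b : V n, b ≠ 0 ∧ ∃ (c : V n) (e : ZMod 2),
    k = (univ.filter fun x => b ⬝ᵥ G x ≠ c ⬝ᵥ x + e).card}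

/-! ### Degrees -/

theorem two0 : (2 : ZMod 2) = 0 := by decide

theorem vadd_self (x : V n) : x + x = 0 := by
  funext i
  have : x i + x i = 2 * x i := by ring
  simp [this, two0]

theorem zadd_self (x : ZMod 2) : x + x = 0 := by
  have : x + x = 2 * x := by ring
  simp [this, two0]

theorem DegLE.mono {d e : ℕ} {f : V n → ZMod 2} (h : DegLE d f) (hde : d ≤ e) : DegLE e f := by
  obtain ⟨p, hp, hf⟩ := h
  exact ⟨p, hp.trans hde, hf⟩

theorem DegLE.add {d : ℕ} {f g : V n → ZMod 2} (hf : DegLE d f) (hg : DegLE d g) :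
    DegLE d (fun x => f x + g x) := by
  obtain ⟨p, hp, hf⟩ := hf
  obtain ⟨q, hq, hg⟩ := hg
  exact ⟨p + q, (MvPolynomial.totalDegree_add p q).trans (max_le hp hq), fun x => by
    simp [hf, hg]⟩

theorem DegLE.mul {d e : ℕ} {f g : V n → ZMod 2} (hf : DegLE d f) (hg : DegLE e g) :
    DegLE (d + e) (fun x => f x * g x) := by
  obtain ⟨p, hp, hf⟩ := hf
  obtain ⟨q, hq, hg⟩ := hg
  exact ⟨p * q, (MvPolynomial.totalDegree_mul p q).trans (add_le_add hp hq), fun x => by
    simp [hf, hg]⟩

theorem DegLE.const (d : ℕ) (c : ZMod 2) : DegLE d (fun _ : V n => c) :=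
  ⟨MvPolynomial.C c, by simp, fun x => by simp⟩

theorem DegLE.smul {d : ℕ} {f : V n → ZMod 2} (c : ZMod 2) (hf : DegLE d f) :
    DegLE d (fun x => c * f x) := by
  have := (DegLE.const 0 c).mul hf
  simpa using this

theorem DegLE.sum {ι : Type*} {d : ℕ} (s : Finset ι) (f : ι → V n → ZMod 2)
    (h : ∀ i ∈ s, DegLE d (f i)) : DegLE d (fun x => ∑ i ∈ s, f i x) := by
  classical
  induction s using Finset.induction_on with
  | empty => simpa using DegLE.const d 0
  | insert a s ha ih =>
    have h1 := (h a (mem_insert_self a s)).add (ih fun i hi => h i (mem_insert_of_mem hi))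
    simpa [Finset.sum_insert ha] using h1

theorem DegLE.coord (i : Fin n) : DegLE 1 (fun x : V n => x i) :=
  ⟨MvPolynomial.X i, by simp [MvPolynomial.totalDegree_X], fun x => by simp⟩

theorem DegLE.dot (c : V n) : DegLE 1 (fun x : V n => c ⬝ᵥ x) := by
  unfold dotProduct
  exact DegLE.sum univ (fun i (x : V n) => c i * x i) fun i _ => (DegLE.coord i).smul (c i)

theorem DegLE.dotF {d : ℕ} {F : V n → V n} (h : ∀ i, DegLE d fun x => F x i) (v : V n) :
    DegLE d (fun x => v ⬝ᵥ F x) := by
  unfold dotProduct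
  exact DegLE.sum univ (fun i (x : V n) => v i * F x i) fun i _ => (h i).smul (v i)

/-- The sum over `F₂ⁿ` of a function of degree less than `n` vanishes. -/
theorem DegLE.sum_eq_zero {d : ℕ} {f : V n → ZMod 2} (hf : DegLE d f) (hd : d < n) :
    ∑ x, f x = 0 := by
  obtain ⟨p, hp, hf⟩ := hf
  have h := MvPolynomial.sum_eval_eq_zero (K := ZMod 2) (σ := Fin n) p (by
    simp [ZMod.card]
    omega)
  simpa [hf] using h

theorem peel (m : Fin n →₀ ℕ) (hm : m ≠ 0) :
    ∃ (i : Fin n) (m' : Fin n →₀ ℕ), m = Finsupp.single i 1 + m' ∧ m'.degree + 1 = m.degree := by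
  obtain ⟨i, hi⟩ := Finsupp.support_nonempty_iff.mpr hm
  have hle : Finsupp.single i 1 ≤ m := by
    rw [Finsupp.single_le_iff]
    exact Nat.one_le_iff_ne_zero.mpr (Finsupp.mem_support_iff.mp hi)
  refine ⟨i, m - Finsupp.single i 1, (add_tsub_cancel_of_le hle).symm, ?_⟩
  have h := congrArg Finsupp.degree (add_tsub_cancel_of_le hle)
  rw [map_add, Finsupp.degree_single] at h
  omega

theorem mono_third (m : Fin n →₀ ℕ) (hm : m.degree ≤ 2) (x y z : V n) :
    (m.prod fun i e => (x + y + z) i ^ e) + (m.prod fun i e => (x + y) i ^ e) +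
      (m.prod fun i e => (x + z) i ^ e) + (m.prod fun i e => (y + z) i ^ e) +
      (m.prod fun i e => x i ^ e) + (m.prod fun i e => y i ^ e) +
      (m.prod fun i e => z i ^ e) + (m.prod fun i e => (0 : V n) i ^ e) = 0 := by
  have h2 := two0
  by_cases h0 : m = 0
  · subst h0
    simp only [Finsupp.prod_zero_index]
    decide
  obtain ⟨i, m', rfl, hm'⟩ := peel m h0
  have hp : ∀ (w : V n) (m₁ m₂ : Fin n →₀ ℕ), ((m₁ + m₂).prod fun i e => w i ^ e) =
      (m₁.prod fun i e => w i ^ e) * (m₂.prod fun i e => w i ^ e) := fun w m₁ m₂ =>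
    Finsupp.prod_add_index' (fun i => pow_zero _) (fun i a b => pow_add _ _ _)
  have hs : ∀ (w : V n) (i : Fin n), ((Finsupp.single i 1).prod fun i e => w i ^ e) = w i :=
    fun w i => by rw [Finsupp.prod_single_index (by simp)]; simp
  by_cases h1 : m' = 0
  · subst h1
    simp only [add_zero, hs, Pi.add_apply, Pi.zero_apply]
    linear_combination (2 * (x i + y i + z i)) * h2
  obtain ⟨j, m'', rfl, hm''⟩ := peel m' h1
  have h3 : m'' = 0 := by
    rw [← Finsupp.degree_eq_zero_iff]
    omega
  subst h3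
  simp only [add_zero, hp, hs, Pi.add_apply, Pi.zero_apply]
  linear_combination (2 * x i * x j + 2 * y i * y j + 2 * z i * z j + x i * y j + y i * x j +
    x i * z j + z i * x j + y i * z j + z i * y j) * h2

theorem third {f : V n → ZMod 2} (hf : DegLE 2 f) (x y z : V n) :
    f (x + y + z) + f (x + y) + f (x + z) + f (y + z) + f x + f y + f z + f 0 = 0 := by
  obtain ⟨p, hp, hf⟩ := hf
  have key : ∀ d ∈ p.support, p.coeff d * ((d.prod fun i e => (x + y + z) i ^ e) +
      (d.prod fun i e => (x + y) i ^ e) +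
      (d.prod fun i e => (x + z) i ^ e) + (d.prod fun i e => (y + z) i ^ e) +
      (d.prod fun i e => x i ^ e) + (d.prod fun i e => y i ^ e) +
      (d.prod fun i e => z i ^ e) + (d.prod fun i e => (0 : V n) i ^ e)) = 0 := by
    intro d hd
    rw [mono_third d _ x y z, mul_zero]
    exact (MvPolynomial.le_totalDegree hd).trans hp
  have := Finset.sum_eq_zero key
  simp only [mul_add, Finset.sum_add_distrib] at this
  simp only [← hf, MvPolynomial.eval_eq]
  exact this

/-! ### The alternating bilinear map of a quadratic function -/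

/-- The polar form `B (a, x) = F (x + a) + F (x) + F (a) + F (0)`. -/
def B (F : V n → V n) (a x : V n) : V n := D F a x + D F a 0

theorem B_eq (F : V n → V n) (a x : V n) : B F a x = F (x + a) + F x + (F a + F 0) := by
  simp [B, D]

theorem B_comm (F : V n → V n) (a x : V n) : B F a x = B F x a := by
  rw [B_eq, B_eq, add_comm x a]
  abel

theorem B_self (F : V n → V n) (a : V n) : B F a a = 0 := by
  rw [B_eq, vadd_self]
  calc F 0 + F a + (F a + F 0) = (F 0 + F 0) + (F a + F a) := by abel
    _ = 0 := by rw [vadd_self, vadd_self, add_zero]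

theorem B_zero (F : V n → V n) (a : V n) : B F a 0 = 0 := by
  simp [B, vadd_self]

theorem zero_B (F : V n → V n) (a : V n) : B F 0 a = 0 := by
  rw [B_comm, B_zero]

theorem B_add {F : V n → V n} (hF : ∀ i, DegLE 2 fun x => F x i) (a x y : V n) :
    B F a (x + y) = B F a x + B F a y := by
  funext i
  have h := third (hF i) a x y
  simp only [B_eq, Pi.add_apply]
  have e1 : x + y + a = a + x + y := by abel
  have e2 : x + a = a + x := add_comm _ _
  have e3 : y + a = a + y := add_comm _ _
  rw [e1, e2, e3]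
  have h2 := two0
  linear_combination h - (F (a + x) i + F (a + y) i + F x i + F y i + F a i + F 0 i) * h2

theorem add_B {F : V n → V n} (hF : ∀ i, DegLE 2 fun x => F x i) (a x y : V n) :
    B F (x + y) a = B F x a + B F y a := by
  rw [B_comm, B_add hF, B_comm F a x, B_comm F a y]

/-- The kernel of `B (a, ·)`. -/
theorem B_ker {F : V n → V n} (hA : APN F) {a x : V n} (ha : a ≠ 0) (h : B F a x = 0) :
    x = 0 ∨ x = a := by
  classical
  by_contra hx
  push Not at hx
  have h1 : ({0, a, x} : Finset (V n)) ⊆ univ.filter fun x => D F a x = D F a 0 := by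
    intro y hy
    simp only [mem_insert, mem_singleton] at hy
    simp only [mem_filter, mem_univ, true_and]
    rcases hy with rfl | rfl | rfl
    · rfl
    · simp [D, vadd_self, add_comm]
    · have : D F a y + D F a 0 + D F a 0 = D F a 0 := by
        have h' : D F a y + D F a 0 = 0 := h
        rw [h', zero_add]
      rwa [add_assoc, vadd_self, add_zero] at this
  have h2 := (card_le_card h1).trans (hA a ha _)
  rw [card_insert_of_notMem (by simp [ha.symm, hx.1.symm]),
    card_insert_of_notMem (by simp [hx.2.symm]), card_singleton] at h2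
  omega

theorem eq_of_B_eq {F : V n → V n} (hA : APN F) (hF : ∀ i, DegLE 2 fun x => F x i)
    {a x y : V n} (ha : a ≠ 0) (h : B F a x = B F a y) : y = x ∨ y = x + a := by
  have h1 : B F a (x + y) = 0 := by rw [B_add hF, h, vadd_self]
  rcases B_ker hA ha h1 with h2 | h2
  · left
    calc y = x + (x + y) := by rw [← add_assoc, vadd_self, zero_add]
      _ = x := by rw [h2, add_zero]
  · right
    calc y = x + (x + y) := by rw [← add_assoc, vadd_self, zero_add]
      _ = x + a := by rw [h2]

theorem exists_dot_one {w : V n} (hw : w ≠ 0) : ∃ e : V n, w ⬝ᵥ e = 1 := by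
  obtain ⟨i, hi⟩ := Function.ne_iff.mp hw
  refine ⟨Pi.single i 1, ?_⟩
  rw [dotProduct_single, mul_one]
  have : ∀ t : ZMod 2, t ≠ 0 → t = 1 := by decide
  exact this _ hi

theorem card_dot {w : V n} (hw : w ≠ 0) :
    2 * (univ.filter fun y : V n => w ⬝ᵥ y = 0).card = Fintype.card (V n) := by
  obtain ⟨e, he⟩ := exists_dot_one hw
  have h1 : (univ.filter fun y : V n => ¬ w ⬝ᵥ y = 0).card =
      (univ.filter fun y : V n => w ⬝ᵥ y = 0).card := by
    refine card_bij (fun y _ => y + e) ?_ ?_ ?_
    · intro y hy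
      simp only [mem_filter, mem_univ, true_and, dotProduct_add, he] at hy ⊢
      have : ∀ t : ZMod 2, ¬ t = 0 → t + 1 = 0 := by decide
      exact this _ hy
    · intro y _ z _ h
      exact add_right_cancel h
    · intro z hz
      refine ⟨z + e, ?_, by rw [add_assoc, vadd_self, add_zero]⟩
      simp only [mem_filter, mem_univ, true_and, dotProduct_add, he] at hz ⊢
      rw [hz]
      decide
  have h2 := card_filter_add_card_filter_not (s := (univ : Finset (V n)))
    (fun y : V n => w ⬝ᵥ y = 0)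
  rw [h1, card_univ] at h2
  omega

theorem B_surj {F π : V n → V n} (hA : APN F) (hπ : IsOrtho F π)
    {a b : V n} (ha : a ≠ 0) (h : π a ⬝ᵥ b = 0) : ∃ x, B F a x = b := by
  classical
  have h1 : univ.image (B F a) ⊆ univ.filter fun y : V n => π a ⬝ᵥ y = 0 := by
    intro y hy
    obtain ⟨x, _, rfl⟩ := mem_image.mp hy
    simp only [mem_filter, mem_univ, true_and]
    exact (hπ.2 a ha).2 x
  have h2 : (univ : Finset (V n)).card ≤ 2 * (univ.image (B F a)).card := by
    refine card_le_mul_card_image univ 2 fun c _ => ?_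
    refine le_trans (card_le_card ?_) (hA a ha (c + D F a 0))
    intro x hx
    simp only [mem_filter, mem_univ, true_and] at hx ⊢
    rw [← hx, B, add_assoc, vadd_self, add_zero]
  have h3 := card_dot (hπ.2 a ha).1
  rw [card_univ] at h2
  have h4 := eq_of_subset_of_card_le h1 (by omega)
  have h5 : b ∈ univ.image (B F a) := by
    rw [h4]
    simpa using h
  obtain ⟨x, _, hx⟩ := mem_image.mp h5
  exact ⟨x, hx⟩

theorem dot_of_B {F π : V n → V n} (hπ : IsOrtho F π) {a x : V n} (ha : a ≠ 0) :
    B F a x ⬝ᵥ π a = 0 := by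
  rw [dotProduct_comm]
  exact (hπ.2 a ha).2 x

/-- The set of the `y` with `b · π y = 0` is the union of `{0}` and of the disjoint lines
`{a, x, a + x}` with `B (a, x) = b`. -/
theorem sum_lines {F π : V n → V n} (hA : APN F) (hF : ∀ i, DegLE 2 fun x => F x i)
    (hπ : IsOrtho F π) {b : V n} (hb : b ≠ 0) :
    ∃ N : ZMod 2, ∀ (f : V n → ZMod 2) (κ : ZMod 2),
      (∀ a x, B F a x = b → f a + f x + f (x + a) = κ) →
      ∑ y ∈ univ.filter (fun y => b ⬝ᵥ π y = 0), f y = f 0 + N * κ := by
  classical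
  set T : Finset (V n) := univ.filter fun y => b ⬝ᵥ π y = 0 with hT
  let φ : V n → Finset (V n) := fun y => univ.filter fun z => z = y ∨ B F y z = b
  refine ⟨(((T.erase 0).image φ).card : ZMod 2), fun f κ hf => ?_⟩
  have h0 : (0 : V n) ∈ T := by
    simp [hT, hπ.1]
  have hne : ∀ {a x : V n}, B F a x = b → a ≠ 0 ∧ x ≠ 0 ∧ a ≠ x := by
    intro a x h
    refine ⟨?_, ?_, ?_⟩
    · rintro rfl
      exact hb (h ▸ (zero_B F x))
    · rintro rfl
      exact hb (h ▸ (B_zero F a))
    · rintro rfl
      exact hb (h ▸ (B_self F a))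
  have hmem : ∀ {a x : V n}, B F a x = b → a ∈ T.erase 0 := by
    intro a x h
    have ha := (hne h).1
    simp only [hT, mem_erase, mem_filter, mem_univ, true_and]
    exact ⟨ha, h ▸ dot_of_B hπ ha⟩
  have hline : ∀ {a x : V n}, B F a x = b → φ a = {a, x, x + a} := by
    intro a x h
    ext z
    simp only [φ, mem_filter, mem_univ, true_and, mem_insert, mem_singleton]
    constructor
    · rintro (h1 | h1)
      · exact Or.inl h1
      · exact Or.inr (eq_of_B_eq hA hF (hne h).1 (h.trans h1.symm))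
    · rintro (h1 | h1 | h1)
      · exact Or.inl h1
      · right
        rw [h1, h]
      · right
        rw [h1, B_add hF, h, B_self, add_zero]
  have hsub : ∀ y ∈ T.erase 0, ∃ x, B F y x = b := by
    intro y hy
    simp only [hT, mem_erase, mem_filter, mem_univ, true_and] at hy
    exact B_surj hA hπ hy.1 (by rw [dotProduct_comm]; exact hy.2)
  rw [← add_sum_erase T f h0, ← sum_fiberwise_of_maps_to
    (t := (T.erase 0).image φ) (g := φ) (fun y hy => mem_image_of_mem φ hy) f]
  congr 1
  rw [← nsmul_eq_mul, ← Finset.sum_const]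
  refine sum_congr rfl fun L hL => ?_
  obtain ⟨a, ha, rfl⟩ := mem_image.mp hL
  obtain ⟨x, hx⟩ := hsub a ha
  obtain ⟨hn1, hn2, hn3⟩ := hne hx
  have hx' : B F x a = b := by rw [B_comm, hx]
  have hxa : B F (x + a) a = b := by rw [add_B hF, hx', B_self, add_zero]
  have e1 : (T.erase 0).filter (fun y => φ y = φ a) = {a, x, x + a} := by
    ext y
    simp only [mem_filter, mem_insert, mem_singleton]
    constructor
    · rintro ⟨hy, hy2⟩
      have : y ∈ φ a := by
        rw [← hy2]
        simp [φ]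
      rw [hline hx] at this
      simpa using this
    · rintro (rfl | rfl | rfl)
      · exact ⟨ha, rfl⟩
      · refine ⟨hmem hx', ?_⟩
        rw [hline hx, hline hx', add_comm a y]
        ext z
        simp only [mem_insert, mem_singleton]
        tauto
      · refine ⟨hmem hxa, ?_⟩
        rw [hline hx, hline hxa]
        have : a + (x + a) = x := by
          rw [add_comm x a, ← add_assoc, vadd_self, zero_add]
        rw [this]
        ext z
        simp only [mem_insert, mem_singleton]
        tauto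
  rw [e1, sum_insert, sum_insert, sum_singleton, ← hf a x hx]
  · ring
  · simp only [mem_singleton]
    intro h
    exact hn1 (by simpa using h.symm)
  · simp only [mem_insert, mem_singleton, not_or]
    refine ⟨hn3, fun h => hn2 ?_⟩
    simpa using h.symm

theorem sum_mul_eq {π : V n → V n} (b : V n) (q : V n → ZMod 2) :
    ∑ y, (1 + b ⬝ᵥ π y) * q y = ∑ y ∈ univ.filter (fun y => b ⬝ᵥ π y = 0), q y := by
  rw [sum_filter]
  refine sum_congr rfl fun y _ => ?_
  have : ∀ t s : ZMod 2, (1 + t) * s = if t = 0 then s else 0 := by decide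
  exact this _ _

/-- Every nonzero component of the ortho-derivative has algebraic degree at least `n - 2`. -/
theorem degree_ge {F π : V n → V n} (hA : APN F) (hF : ∀ i, DegLE 2 fun x => F x i)
    (hπ : IsOrtho F π) {b : V n} (hb : b ≠ 0) {d : ℕ} (hd : DegLE d fun x => b ⬝ᵥ π x) :
    n ≤ d + 2 := by
  by_contra hn
  push Not at hn
  obtain ⟨N, hN⟩ := sum_lines hA hF hπ hb
  have hh : DegLE d fun x => 1 + b ⬝ᵥ π x := (DegLE.const d 1).add hd
  -- the number of lines is odd
  have h1 : (1 : ZMod 2) + N * 1 = 0 := by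
    rw [← hN (fun _ => 1) 1 (fun _ _ _ => by decide), ← sum_mul_eq]
    simpa using hh.sum_eq_zero (by omega)
  have hN1 : N = 1 := by
    have : ∀ t : ZMod 2, 1 + t * 1 = 0 → t = 1 := by decide
    exact this N h1
  obtain ⟨v, hv⟩ := exists_dot_one hb
  rw [dotProduct_comm] at hv
  have h2 : v ⬝ᵥ F 0 + N * (1 + v ⬝ᵥ F 0) = 0 := by
    rw [← hN (fun y => v ⬝ᵥ F y) (1 + v ⬝ᵥ F 0) ?_, ← sum_mul_eq]
    · exact (hh.mul (DegLE.dotF hF v)).sum_eq_zero (by omega)
    · intro a x h
      rw [B_eq] at h
      have h3 : v ⬝ᵥ (F (x + a) + F x + (F a + F 0)) = 1 := by rw [h, hv]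
      simp only [dotProduct_add] at h3
      have h2 := two0
      linear_combination h3 - (v ⬝ᵥ F 0) * h2
  rw [hN1] at h2
  have : ∀ t : ZMod 2, t + 1 * (1 + t) ≠ 0 := by decide
  exact this _ h2

/-! ### Existence and uniqueness of the ortho-derivative -/

theorem exists_perp {F : V n → V n} (hF : ∀ i, DegLE 2 fun x => F x i) {a : V n} (ha : a ≠ 0) :
    ∃ w : V n, w ≠ 0 ∧ ∀ x, w ⬝ᵥ (D F a x + D F a 0) = 0 := by
  classical
  let L : V n →ₗ[ZMod 2] V n :=
    { toFun := B F a
      map_add' := B_add hF a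
      map_smul' := by
        intro c x
        have : ∀ t : ZMod 2, t = 0 ∨ t = 1 := by decide
        rcases this c with rfl | rfl
        · simp [B_zero]
        · simp }
  have h1 : LinearMap.range L < ⊤ := by
    rw [lt_top_iff_ne_top]
    intro h
    have hs : Function.Surjective L := LinearMap.range_eq_top.mp h
    have hi : Function.Injective L := LinearMap.injective_iff_surjective.mpr hs
    exact ha (hi (show B F a a = B F a 0 by rw [B_self, B_zero]))
  obtain ⟨f, hf0, hf⟩ := Submodule.exists_le_ker_of_lt_top _ h1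
  have hfx : ∀ x, (fun i => f (fun j => if i = j then 1 else 0)) ⬝ᵥ x = f x := by
    intro x
    rw [LinearMap.pi_apply_eq_sum_univ f x]
    simp [dotProduct, mul_comm]
  refine ⟨fun i => f (fun j => if i = j then 1 else 0), ?_, ?_⟩
  · intro h
    refine hf0 (LinearMap.ext fun x => ?_)
    rw [← hfx, h]
    simp
  · intro x
    rw [hfx]
    exact LinearMap.mem_ker.mp (hf ⟨x, rfl⟩)

theorem existsUnique_ortho {F : V n → V n} (hA : APN F) (hF : ∀ i, DegLE 2 fun x => F x i) :
    ∃! π, IsOrtho F π := by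
  classical
  have h : ∀ a : V n, ∃ w : V n, (a = 0 → w = 0) ∧
      (a ≠ 0 → w ≠ 0 ∧ ∀ x, w ⬝ᵥ (D F a x + D F a 0) = 0) := by
    intro a
    by_cases ha : a = 0
    · exact ⟨0, fun _ => rfl, fun h => absurd ha h⟩
    · obtain ⟨w, hw⟩ := exists_perp hF ha
      exact ⟨w, fun h => absurd h ha, fun _ => hw⟩
  choose π hπ using h
  have hπo : IsOrtho F π := ⟨(hπ 0).1 rfl, fun a ha => (hπ a).2 ha⟩
  refine ⟨π, hπo, fun ρ hρ => ?_⟩
  funext a
  by_cases ha : a = 0
  · rw [ha, hρ.1, hπo.1]
  have h1 : ∀ b, ρ a ⬝ᵥ b = 0 → π a ⬝ᵥ b = 0 := fun b hb => by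
    obtain ⟨x, rfl⟩ := B_surj hA hρ ha hb
    exact (hπo.2 a ha).2 x
  have h2 : ∀ b, π a ⬝ᵥ b = 0 → ρ a ⬝ᵥ b = 0 := fun b hb => by
    obtain ⟨x, rfl⟩ := B_surj hA hπo ha hb
    exact (hρ.2 a ha).2 x
  have h3 : ∀ b, ρ a ⬝ᵥ b = π a ⬝ᵥ b := by
    intro b
    have key : ∀ s t : ZMod 2, (s = 0 → t = 0) → (t = 0 → s = 0) → s = t := by decide
    exact key _ _ (h1 b) (h2 b)
  funext i
  have := h3 (Pi.single i 1)
  simpa [dotProduct_single] using this

/-! ### The nonlinearity -/

theorem le_three_of_NL {F π : V n → V n} (hA : APN F) (hF : ∀ i, DegLE 2 fun x => F x i)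
    (hπ : IsOrtho F π) (h : NL π = 0) : n ≤ 3 := by
  classical
  by_contra hn
  push Not at hn
  have hb : (fun _ : Fin n => (1 : ZMod 2)) ≠ 0 := by
    intro h0
    have := congrFun h0 ⟨0, by omega⟩
    simp at this
  rcases Nat.sInf_eq_zero.mp h with h1 | h1
  · obtain ⟨b, hb, c, e, h2⟩ := h1
    have h3 := card_eq_zero.mp h2.symm
    have h4 : ∀ x, b ⬝ᵥ π x = c ⬝ᵥ x + e := by
      intro x
      by_contra h5
      have : x ∈ (univ.filter fun x => b ⬝ᵥ π x ≠ c ⬝ᵥ x + e) := by simpa using h5
      rw [h3] at this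
      simp at this
    have h5 : DegLE 1 fun x => b ⬝ᵥ π x := by
      simp only [h4]
      exact (DegLE.dot c).add (DegLE.const 1 e)
    have := degree_ge hA hF hπ hb h5
    omega
  · have : (univ.filter fun x => (fun _ : Fin n => (1 : ZMod 2)) ⬝ᵥ π x ≠
        (0 : V n) ⬝ᵥ x + 0).card ∈ {k | ∃ b : V n, b ≠ 0 ∧ ∃ (c : V n) (e : ZMod 2),
          k = (univ.filter fun x => b ⬝ᵥ π x ≠ c ⬝ᵥ x + e).card} :=
      ⟨_, hb, 0, 0, rfl⟩
    rw [h1] at this
    exact this

/-- If two independent vectors `a`, `x` are such that the plane they span is the kernel of a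
functional, then the component `B (a, x)` of the ortho-derivative is linear. -/
theorem NL_zero_of_plane {F π : V n → V n} (hA : APN F) (hF : ∀ i, DegLE 2 fun x => F x i)
    (hπ : IsOrtho F π) {a x c : V n} (ha : a ≠ 0) (hx : x ≠ 0) (hax : x ≠ a)
    (hc : ∀ y, c ⬝ᵥ y = 0 ↔ y = 0 ∨ y = a ∨ y = x ∨ y = x + a) : NL π = 0 := by
  classical
  set b := B F a x with hbdef
  have hb : b ≠ 0 := by
    intro h
    rcases B_ker hA ha h with h | h
    · exact hx h
    · exact hax h
  have hxb : B F x a = b := by rw [B_comm]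
  have hxa : B F (x + a) a = b := by rw [add_B hF, hxb, B_self, add_zero]
  have hxa0 : x + a ≠ 0 := by
    intro h
    apply hax
    calc x = x + (a + a) := by rw [vadd_self, add_zero]
      _ = a := by rw [← add_assoc, h, zero_add]
  -- each nonzero vector of the plane has a partner in the plane
  have hpart : ∀ w, w ≠ 0 → c ⬝ᵥ w = 0 → ∃ w', c ⬝ᵥ w' = 0 ∧ B F w w' = b := by
    intro w hw hcw
    rcases (hc w).mp hcw with h | h | h | h
    · exact absurd h hw
    · exact ⟨x, (hc x).mpr (by tauto), by rw [h]⟩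
    · exact ⟨a, (hc a).mpr (by tauto), by rw [h, hxb]⟩
    · exact ⟨a, (hc a).mpr (by tauto), by rw [h, hxa]⟩
  have hlin : ∀ y, b ⬝ᵥ π y = c ⬝ᵥ y := by
    intro y
    have h01 : ∀ t : ZMod 2, t ≠ 0 → t = 1 := by decide
    by_cases hy0 : y = 0
    · rw [hy0, hπ.1]
      simp
    by_cases hcy : c ⬝ᵥ y = 0
    · obtain ⟨w', -, h⟩ := hpart y hy0 hcy
      rw [hcy, ← h]
      exact dot_of_B hπ hy0
    · rw [h01 _ hcy]
      apply h01
      intro hby
      obtain ⟨z, hz⟩ := B_surj hA hπ hy0 (by rw [dotProduct_comm]; exact hby)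
      have hz0 : z ≠ 0 := by
        rintro rfl
        exact hb (hz ▸ (B_zero F y))
      have hzy : z ≠ y := by
        rintro rfl
        exact hb (hz ▸ (B_self F z))
      have hw : ∃ w, w ≠ 0 ∧ c ⬝ᵥ w = 0 ∧ B F w y = b := by
        by_cases hcz : c ⬝ᵥ z = 0
        · exact ⟨z, hz0, hcz, by rw [B_comm, hz]⟩
        · refine ⟨z + y, ?_, ?_, ?_⟩
          · intro h
            apply hzy
            calc z = z + (y + y) := by rw [vadd_self, add_zero]
              _ = y := by rw [← add_assoc, h, zero_add]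
          · rw [dotProduct_add, h01 _ hcz, h01 _ hcy]
            decide
          · rw [add_B hF, B_self, add_zero, B_comm, hz]
      obtain ⟨w, hw0, hcw, hwy⟩ := hw
      obtain ⟨w', hcw', hww⟩ := hpart w hw0 hcw
      rcases eq_of_B_eq hA hF hw0 (hww.trans hwy.symm) with h | h
      · exact hcy (h ▸ hcw')
      · apply hcy
        rw [h, dotProduct_add, hcw', hcw, add_zero]
  refine Nat.sInf_eq_zero.mpr (Or.inl ⟨b, hb, c, 0, ?_⟩)
  symm
  rw [card_eq_zero, filter_eq_empty_iff]
  intro y _
  simp [hlin]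

theorem plane2 : ∀ y : V 2, (0 : V 2) ⬝ᵥ y = 0 ↔
    y = 0 ∨ y = ![1, 0] ∨ y = ![0, 1] ∨ y = ![0, 1] + ![1, 0] := by
  decide

theorem plane3 : ∀ y : V 3, (![0, 0, 1] : V 3) ⬝ᵥ y = 0 ↔
    y = 0 ∨ y = ![1, 0, 0] ∨ y = ![0, 1, 0] ∨ y = ![0, 1, 0] + ![1, 0, 0] := by
  decide

theorem not_quadratic_zero (F : V 0 → V 0) : ¬ Quadratic F := fun h => h.2 fun i => i.elim0

theorem not_quadratic_one (F : V 1 → V 1) : ¬ Quadratic F := by
  intro h
  apply h.2
  intro i
  have h1 : DegLE 1 fun x : V 1 => F 0 i + (F 0 i + F (fun _ => 1) i) * x 0 :=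
    (DegLE.const 1 _).add ((DegLE.coord 0).smul _)
  convert h1 using 2 with x
  have h2 : ∀ t : ZMod 2, t = 0 ∨ t = 1 := by decide
  rcases h2 (x 0) with h3 | h3
  · have : x = 0 := by
      funext j
      fin_cases j
      exact h3
    rw [this]
    simp
  · have : x = fun _ => 1 := by
      funext j
      fin_cases j
      exact h3
    rw [this]
    simp only [mul_one]
    rw [← add_assoc, zadd_self, zero_add]

theorem NL_eq_zero_iff {F π : V n → V n} (hA : APN F) (hQ : Quadratic F) (hπ : IsOrtho F π) :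
    NL π = 0 ↔ n ≤ 3 := by
  refine ⟨le_three_of_NL hA hQ.1 hπ, fun hn => ?_⟩
  rcases n with _ | _ | _ | _ | n
  · exact absurd hQ (not_quadratic_zero F)
  · exact absurd hQ (not_quadratic_one F)
  · exact NL_zero_of_plane hA hQ.1 hπ (a := ![1, 0]) (x := ![0, 1]) (c := 0) (by decide)
      (by decide) (by decide) plane2
  · exact NL_zero_of_plane hA hQ.1 hπ (a := ![1, 0, 0]) (x := ![0, 1, 0]) (c := ![0, 0, 1])
      (by decide) (by decide) (by decide) plane3
  · omega

/-! ### A quadratic APN function in dimension three -/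

/-- `(x₀, x₁, x₂) ↦ (x₁ x₂, x₀ x₂, x₀ x₁)`. -/
def F3 (x : V 3) : V 3 := ![x 1 * x 2, x 0 * x 2, x 0 * x 1]

theorem F3_APN : APN F3 := by
  unfold APN
  decide

theorem F3_quadratic : Quadratic F3 := by
  refine ⟨fun i => ?_, fun h => ?_⟩
  · have hm : ∀ i j : Fin 3, DegLE 2 fun x : V 3 => x i * x j := fun i j =>
      (DegLE.coord i).mul (DegLE.coord j)
    fin_cases i
    · exact hm 1 2
    · exact hm 0 2
    · exact hm 0 1
  · have h1 := ((h 0).mul (DegLE.coord 0)).sum_eq_zero (by norm_num)
    revert h1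
    decide

/-- **MP_4cfb12_co, Q1.** For a quadratic APN function `F` on `F₂ⁿ` with ortho-derivative `π` (which
exists and is unique), every nonzero component of `π` has algebraic degree at least `n - 2`, and
`NL π = 0` if and only if `n ≤ 3`; and there is a quadratic APN function on `F₂³`. -/
theorem result :
    (∀ (n : ℕ) (F : V n → V n), APN F → Quadratic F →
      (∃! π, IsOrtho F π) ∧
      ∀ π, IsOrtho F π →
        (∀ b : V n, b ≠ 0 → ∀ d : ℕ, DegLE d (fun x => b ⬝ᵥ π x) → n ≤ d + 2) ∧
        (NL π = 0 ↔ n ≤ 3)) ∧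
    ∃ F : V 3 → V 3, APN F ∧ Quadratic F :=
  ⟨fun _ _ hA hQ => ⟨existsUnique_ortho hA hQ.1, fun _ hπ =>
    ⟨fun _ hb _ hd => degree_ge hA hQ.1 hπ hb hd, NL_eq_zero_iff hA hQ hπ⟩⟩,
    F3, F3_APN, F3_quadratic⟩

end Pool.Agent.Results.MP_4cfb12_co.OrthoDerivativeDegree
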